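import Pool.Agent.H23.BallotMaj

/-! The major index of `123`-avoiding linear extensions of `EN_{s,2}`. -/

namespace Pool.Agent.Results.MP_5b4ede_co.MajCatalan

open Pool.Agent.H23.BallotMaj Polynomial

/-- The order of `EN_{s,t}`: for `x = (j-1)t + k`, `y = (j'-1)t + k'`, `x ⪯ y` iff `j' ≤ j` and
`k ≤ k'`. -/
def EN (t x y : ℕ) : Prop := (y - 1) / t ≤ (x - 1) / t ∧ (x - 1) % t ≤ (y - 1) % t

theorem result (s : ℕ) :
    ∑ w ∈ LE123 (s * 2) (EN 2), (X : ℚ[X]) ^ maj w =
      X ^ (2 * s.choose 2) * ∑ w ∈ CW 0 1 s, X ^ maj w := by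
  have hR : Rect s (fun a => 2 * (s - a) - 1) (fun b => 2 * (s - b)) (EN 2) := by
    constructor <;> intro i hi j hj <;> simp only [EN] <;> omega
  rw [mul_comm s 2, LE_eq hR (fun i hi j hj h => by omega) (fun i hi j hj h => by omega),
    CW_eq (by omega)]
  · refine poly_eq _ _ _ fun q hq => ?_
    obtain ⟨h0, h1, h2⟩ := good_q hq
    have e1 := casePeak (α := fun a => 2 * (s - a) - 1) (β := fun b => 2 * (s - b)) (s := s) h0 h2
      (fun a h => by omega) (fun a h => by omega) (fun a h b h' => by omega) (fun a h => by omega)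
    have e2 := catalan (show 0 < 1 by omega) h1 s
    have e3 : ∀ n : ℕ, 2 * n.choose 2 + n = n * n := fun n => by
      induction n with
      | zero => rfl
      | succ n ih => rw [Nat.choose_succ_succ' n 1, Nat.choose_one_right]; nlinarith
    rw [mul_left_comm, T_symm h0 h1, ← e2, ← e3, pow_add, inv_pow] at e1
    refine e1.trans ?_
    simp only [S]
    field_simp
  · intro x
    constructor
    · intro h
      rcases Nat.mod_two_eq_zero_or_one x with h2 | h2
      · exact Or.inr ⟨s - x / 2, by omega, by omega⟩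
      · exact Or.inl ⟨s - (x + 1) / 2, by omega, by omega⟩
    · rintro (⟨i, hi, rfl⟩ | ⟨i, hi, rfl⟩) <;> omega

end Pool.Agent.Results.MP_5b4ede_co.MajCatalan
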